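import Pool.Agent.R630.PL.Count

set_option autoImplicit false

/-!
# MP_d84dbd_al, Q1: countability of `T' / G`, and finiteness for stabilizers with small quotients

Let `(G, T)` be a projective pile and let `t_1, ..., t_k` be points in distinct orbits. For every
finite group `Q` and continuous homomorphisms `q_i : G_{t_i} → Q` there is a continuous
homomorphism `G → Q` whose restriction to `G_{t_i}` is conjugate to `q_i`, for all `i`
(solve a suitable finite rigid embedding problem). If all `q_i` are nontrivial, then the choices
`q_i` or `1` give `2 ^ k` different homomorphisms `G → Q`, and there are at most `|Q| ^ d` of these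
if `G` is generated by `d` elements. Apply this to symmetric groups.
-/

universe u

namespace Pool.Agent.Results.MP_d84dbd_al.OrbitsOfSmallIndex

open Pool.Agent.R630.PL

/-- Let `P = (G, T)` be a projective pile with `G` topologically generated by the finite set `S`.
(1) For every `n`, the set of orbits of points `t` such that `G_t` has a proper open subgroup of
index at most `n` is finite, and its cardinality `k` satisfies `2 ^ k ≤ (n!) ^ #S`.
(2) The set `T' / G` of orbits of points with nontrivial stabilizer is countable.
(3) If for some `n` every nontrivial stabilizer has a proper open subgroup of index at most `n`,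
then `T' / G` is finite. -/
theorem result (P : Pile.{u}) (hP : P.Projective) (S : Finset P.G)
    (hS : (Subgroup.closure (S : Set P.G)).topologicalClosure = ⊤) :
    (∀ n : ℕ, (P.smallOrbits n).Finite ∧ 2 ^ (P.smallOrbits n).ncard ≤ (n.factorial) ^ S.card) ∧
    P.nontrivialOrbits.Countable ∧
    (∀ n : ℕ, (∀ t : P.T, P.stab t ≠ ⊥ →
        ∃ V : Subgroup (P.stab t), IsOpen (V : Set (P.stab t)) ∧ V ≠ ⊤ ∧ V.index ≤ n) →
      P.nontrivialOrbits.Finite) := by
  refine ⟨fun n => P.smallOrbits_finite hP S hS n, ?_, fun n hn => ?_⟩
  · exact (Set.countable_iUnion fun n => (P.smallOrbits_finite hP S hS n).1.countable).mono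
      P.nontrivialOrbits_subset
  · refine (P.smallOrbits_finite hP S hS n).1.subset ?_
    rintro _ ⟨t, rfl, ht⟩
    exact ⟨t, rfl, hn t ht⟩

end Pool.Agent.Results.MP_d84dbd_al.OrbitsOfSmallIndex
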